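import Pool.Agent.H40.Zt7

set_option autoImplicit false

namespace Pool.Agent.Results.MP_e2756a_lc.Neg

open Pool.Agent.H40.Bspt Pool.Agent.H40.Jz Pool.Agent.H40.Zt

theorem result (M : Type) (E : M → M → Prop) (h : IsZF E) (A : M) (hA : ¬ IsFin E A)
    (ψ : Ex E A → {S // ∀ n, E n S → IsNat E n}) (h1 : Intl E fun x => (ψ x).1)
    (h2 : Function.Injective ψ) :
    ¬ ∃ φ : {σ // IsPerm E A σ} → Ex E A, Intl E (fun σ => (φ σ).1) ∧ Fto E φ := by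
  rintro ⟨φ, a, b⟩
  obtain ⟨f, c, d⟩ := intl_t h a
  obtain ⟨g, c', d'⟩ := intl_t h h1
  obtain ⟨o, ho⟩ := h.emp
  have := @t1 _ E f c
  have := @t1 _ E g c'
  refine hA (thm_lin h (val := fun σ => pr E o (f σ)) ⟨inferInstance, fun σ i => ⟨o, _, h.nat0 ho,
    (φ ⟨σ, i⟩).2, congrArg _ (d ⟨σ, i⟩)⟩, fun v => ?_⟩ (fun x y => ∃ n, IsNat E n ∧ ¬ E n (g x) ∧
      E n (g y) ∧ ∀ m, E m n → (E m (g x) ↔ E m (g y))) (fun x ⟨_, _, i, j, _⟩ => i j) ?_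
    fun x y i j k => ?_)
  · by_cases e : ∃ σ, IsPerm E A σ ∧ pr E o (f σ) = v
    · obtain ⟨σ, e, rfl⟩ := e
      exact (b (φ ⟨σ, e⟩)).imp fun D i => ⟨i.1, fun τ j => i.2 ⟨τ, j.1⟩ (Subtype.ext
        ((d ⟨τ, j.1⟩).symm.trans ((pr_inj h j.2).2.trans (d ⟨σ, e⟩))))⟩
    · exact few_one h fun σ _ i => absurd ⟨σ, i⟩ e
  · rintro x y z ⟨n, i, j, k, l⟩ ⟨m, i', j', k', l'⟩
    rcases tri h i i' with p | rfl | p
    · exact ⟨n, i, j, (l' n p).1 k, fun q r => (l q r).trans (l' q (ntr h i' r p))⟩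
    · exact absurd k j'
    · exact ⟨m, i', mt (l m p).1 j', k', fun q r => (l q (ntr h i r p)).trans (l' q r)⟩
  · obtain ⟨n, l⟩ : ∃ n, ¬ (E n (g x) ↔ E n (g y)) := not_forall.1 fun l => k (congrArg Subtype.val
      (h2 (a₁ := ⟨x, i⟩) (a₂ := ⟨y, j⟩) (Subtype.ext ((d' ⟨x, i⟩).symm.trans ((h.ext _ _ l).trans
        (d' ⟨y, j⟩))))))
    have p : IsNat E n := by_contra fun p => l (iff_of_false
      (fun q => p ((ψ ⟨x, i⟩).2 n (d' ⟨x, i⟩ ▸ q))) fun q => p ((ψ ⟨y, j⟩).2 n (d' ⟨y, j⟩ ▸ q)))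
    obtain ⟨m, ⟨q, r⟩, s⟩ := least h (fun n => ¬ (E n (g x) ↔ E n (g y))) p l
    have t : ∀ k, E k m → (E k (g x) ↔ E k (g y)) := fun k t => by_contra fun u => s k t ⟨nel h q t, u⟩
    by_cases u : E m (g x)
    · exact Or.inr ⟨m, q, fun v => r (iff_of_true u v), u, fun k v => (t k v).symm⟩
    · exact Or.inl ⟨m, q, u, by_contra fun v => r (iff_of_false u v), t⟩

end Pool.Agent.Results.MP_e2756a_lc.Neg
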